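import Pool.Agent.helper52.FS.SpecD

/-!
# MP_07c750, project FS, row PMS (closed sets invariant under the lower triangular group)
-/

open scoped MatrixGroups ContDiff Topology UpperHalfPlane ComplexConjugate
open UpperHalfPlane MeasureTheory Filter Set

set_option autoImplicit false

namespace Pool.Agent.FS

open Pool.Agent.RS
open Pool.Agent.EN (XG MG mkX mkM fl pr)

lemma PMS_ext (g h : SL(2, ℝ)) (h00 : g.1 0 0 = h.1 0 0) (h01 : g.1 0 1 = h.1 0 1) (h10 : g.1 1 0 = h.1 1 0)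
    (h11 : g.1 1 1 = h.1 1 1) : g = h := by
  apply Subtype.ext
  ext i j
  fin_cases i <;> fin_cases j
  · exact h00
  · exact h01
  · exact h10
  · exact h11

lemma PMS_mul (g h : SL(2, ℝ)) (i j : Fin 2) : (g * h).1 i j = g.1 i 0 * h.1 0 j + g.1 i 1 * h.1 1 j := by
  rw [Matrix.SpecialLinearGroup.coe_mul, Matrix.mul_apply, Fin.sum_univ_two]

lemma PMS_neg (g : SL(2, ℝ)) (i j : Fin 2) : (-g).1 i j = -(g.1 i j) := by
  rw [Matrix.SpecialLinearGroup.coe_neg, Matrix.neg_apply]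

lemma PMS_det (m : SL(2, ℝ)) : m.1 0 0 * m.1 1 1 - m.1 0 1 * m.1 1 0 = 1 := by
  have h := m.2
  rw [Matrix.det_fin_two] at h
  exact h

lemma PMS_a00 (t : ℝ) : (aM t).1 0 0 = Real.exp (t / 2) := by simp [aM]
lemma PMS_a01 (t : ℝ) : (aM t).1 0 1 = 0 := by simp [aM]
lemma PMS_a10 (t : ℝ) : (aM t).1 1 0 = 0 := by simp [aM]
lemma PMS_a11 (t : ℝ) : (aM t).1 1 1 = Real.exp (-(t / 2)) := by simp [aM]
lemma PMS_l00 (t : ℝ) : (lM t).1 0 0 = 1 := by simp [lM]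
lemma PMS_l01 (t : ℝ) : (lM t).1 0 1 = 0 := by simp [lM]
lemma PMS_l10 (t : ℝ) : (lM t).1 1 0 = t := by simp [lM]
lemma PMS_l11 (t : ℝ) : (lM t).1 1 1 = 1 := by simp [lM]
lemma PMS_n00 (t : ℝ) : (nM t).1 0 0 = 1 := by simp [nM]
lemma PMS_n01 (t : ℝ) : (nM t).1 0 1 = t := by simp [nM]
lemma PMS_n10 (t : ℝ) : (nM t).1 1 0 = 0 := by simp [nM]
lemma PMS_n11 (t : ℝ) : (nM t).1 1 1 = 1 := by simp [nM]

lemma PMS_dec (m : SL(2, ℝ)) (hd : m.1 1 1 ≠ 0) :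
    ∃ s u : ℝ, m * aM s * lM u = nM (m.1 0 1 / m.1 1 1) ∨ m * aM s * lM u = -nM (m.1 0 1 / m.1 1 1) := by
  have hdet := PMS_det m
  have habs : 0 < |m.1 1 1| := abs_pos.mpr hd
  obtain ⟨s, hs⟩ : ∃ s : ℝ, Real.exp (s / 2) = |m.1 1 1| :=
    ⟨2 * Real.log |m.1 1 1|, by rw [mul_div_cancel_left₀ _ (by norm_num : (2 : ℝ) ≠ 0), Real.exp_log habs]⟩
  have hs' : Real.exp (-(s / 2)) = |m.1 1 1|⁻¹ := by rw [Real.exp_neg, hs]
  refine ⟨s, -(m.1 1 0 * m.1 1 1), ?_⟩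
  rcases lt_or_gt_of_ne hd with hneg | hpos
  · right
    have hab : |m.1 1 1| = -(m.1 1 1) := abs_of_neg hneg
    rw [hab] at hs hs'
    apply PMS_ext <;>
      simp only [PMS_mul, PMS_neg, PMS_a00, PMS_a01, PMS_a10, PMS_a11, PMS_l00, PMS_l01, PMS_l10, PMS_l11, PMS_n00, PMS_n01, PMS_n10, PMS_n11, hs, hs']
    · field_simp
      linarith
    · field_simp
      ring
    · field_simp
      ring
    · field_simp
      ring
  · left
    have hab : |m.1 1 1| = m.1 1 1 := abs_of_pos hpos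
    rw [hab] at hs hs'
    apply PMS_ext <;>
      simp only [PMS_mul, PMS_neg, PMS_a00, PMS_a01, PMS_a10, PMS_a11, PMS_l00, PMS_l01, PMS_l10, PMS_l11, PMS_n00, PMS_n01, PMS_n10, PMS_n11, hs, hs']
    · field_simp
      linarith
    · field_simp
      ring
    · field_simp
      ring
    · field_simp
      ring

/-- the second column of `g1⁻¹ h` for `mkX h ∈ Z` -/
lemma PMS_star (Γ : Subgroup SL(2, ℝ)) (Z : Set (XG Γ))
    (hP : ∀ (g : SL(2, ℝ)) (s u : ℝ), mkX Γ g ∈ Z → mkX Γ (g * aM s * lM u) ∈ Z)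
    (hneg : ∀ g : SL(2, ℝ), mkX Γ g ∈ Z → mkX Γ (-g) ∈ Z) (g1 : SL(2, ℝ)) (ε : ℝ)
    (hε : ∀ z : ℝ, |z| < ε → mkX Γ (g1 * nM z) ∉ Z) (h : SL(2, ℝ)) (hh : mkX Γ h ∈ Z) :
    |(g1⁻¹ * h).1 1 1| * ε ≤ |(g1⁻¹ * h).1 0 1| := by
  by_contra hcon
  rw [not_le] at hcon
  have hd : (g1⁻¹ * h).1 1 1 ≠ 0 := by
    intro h0
    rw [h0, abs_zero, zero_mul] at hcon
    exact absurd hcon (not_lt.mpr (abs_nonneg _))
  have hz : |(g1⁻¹ * h).1 0 1 / (g1⁻¹ * h).1 1 1| < ε := by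
    rw [abs_div, div_lt_iff₀ (abs_pos.mpr hd), mul_comm ε]
    exact hcon
  obtain ⟨s, u, hsu⟩ := PMS_dec (g1⁻¹ * h) hd
  have hmem := hP h s u hh
  have hh' : h * aM s * lM u = g1 * ((g1⁻¹ * h) * aM s * lM u) := by group
  rw [hh'] at hmem
  rcases hsu with h1 | h1
  · rw [h1] at hmem
    exact hε _ hz hmem
  · rw [h1] at hmem
    have h2 := hneg _ hmem
    rw [mul_neg, neg_neg] at h2
    exact hε _ hz h2

theorem PMS_proof (hN : NLT_stmt) (hG : RS.GLC_stmt) (hX : EN.XFL_stmt) : PMS_stmt := by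
  intro Γ Z hΓ hcl hne hP hneg
  by_contra hZ
  obtain ⟨-, hsec, hcomp, haM, hnM, -, -, -, -, -, haadd, -, -, -, -, -, -, -, -, -⟩ := hG
  obtain ⟨-, -, hmk, -, hsurj, -, -, -, -, -, heq, -⟩ := hX Γ
  obtain ⟨x, hx⟩ := (ne_univ_iff_exists_notMem Z).mp hZ
  obtain ⟨g1, rfl⟩ := hsurj x
  have hzero : nM 0 = 1 := by
    apply PMS_ext <;> simp [nM]
  have ha0 : aM 0 = 1 := by
    apply PMS_ext <;> simp [aM]
  -- a small interval off Z
  have hopen : IsOpen {z : ℝ | mkX Γ (g1 * nM z) ∉ Z} := by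
    have h1 : Continuous fun z : ℝ => mkX Γ (g1 * nM z) := hmk.comp (continuous_const.mul hnM)
    exact hcl.isOpen_compl.preimage h1
  have h0mem : (0 : ℝ) ∈ {z : ℝ | mkX Γ (g1 * nM z) ∉ Z} := by
    show mkX Γ (g1 * nM 0) ∉ Z
    rw [hzero, mul_one]
    exact hx
  obtain ⟨ε, hε0, hε⟩ := Metric.isOpen_iff.mp hopen 0 h0mem
  have hε' : ∀ z : ℝ, |z| < ε → mkX Γ (g1 * nM z) ∉ Z := by
    intro z hz
    refine hε ?_
    rw [Metric.mem_ball, Real.dist_eq, sub_zero]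
    exact hz
  have hinv : ∀ (γ : Γ) (h : SL(2, ℝ)), mkX Γ ((γ : SL(2, ℝ)) * h) = mkX Γ h := by
    intro γ h
    exact ((heq h ((γ : SL(2, ℝ)) * h)).mpr ⟨γ, rfl⟩).symm
  -- cocompactness
  obtain ⟨K, hK, hKc⟩ := hΓ.cocompact
  have hγ : ∀ k : ℕ, ∃ γ : Γ, ((γ : SL(2, ℝ)) * (g1 * aM (-(k : ℝ)))) • I ∈ K := by
    intro k
    obtain ⟨γ, hγ⟩ := hKc ((g1 * aM (-(k : ℝ))) • I)
    refine ⟨γ, ?_⟩
    rw [mul_smul]
    exact hγ
  choose γ hγK using hγ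
  have hcompK := hcomp K hK
  obtain ⟨gi, -, φ, hφ, hlim⟩ := hcompK.tendsto_subseq (x := fun k : ℕ => (γ k : SL(2, ℝ)) * (g1 * aM (-(k : ℝ)))) hγK
  -- the limit
  have hD : ∀ h : SL(2, ℝ), mkX Γ h ∈ Z → (gi⁻¹ * h).1 1 1 = 0 := by
    intro h hh
    have hent : ∀ i j : Fin 2, Tendsto (fun k : ℕ => ((((γ (φ k) : SL(2, ℝ)) * (g1 * aM (-(φ k : ℝ))))⁻¹ * h).1 i j)) atTop (𝓝 ((gi⁻¹ * h).1 i j)) := by
      intro i j
      have h1 : Continuous fun g : SL(2, ℝ) => (g⁻¹ * h).1 i j := by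
        have h2 : Continuous fun g : SL(2, ℝ) => g⁻¹ * h := continuous_inv.mul continuous_const
        exact (continuous_subtype_val.comp h2).matrix_elem i j
      exact (h1.tendsto gi).comp hlim
    have hineq : ∀ k : ℕ, |(((γ k : SL(2, ℝ)) * (g1 * aM (-(k : ℝ))))⁻¹ * h).1 1 1| ≤
        |(((γ k : SL(2, ℝ)) * (g1 * aM (-(k : ℝ))))⁻¹ * h).1 0 1| * (Real.exp (-(k : ℝ)) / ε) := by
      intro k
      have hstar := PMS_star Γ Z hP hneg g1 ε hε' ((((γ k)⁻¹ : Γ) : SL(2, ℝ)) * h) (by rw [hinv]; exact hh)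
      have hinva : (aM (-(k : ℝ)))⁻¹ = aM k := by
        rw [inv_eq_iff_mul_eq_one, ← haadd, neg_add_cancel, ha0]
      have hM : ((γ k : SL(2, ℝ)) * (g1 * aM (-(k : ℝ))))⁻¹ * h = aM k * (g1⁻¹ * ((((γ k)⁻¹ : Γ) : SL(2, ℝ)) * h)) := by
        rw [mul_inv_rev, mul_inv_rev, hinva, Subgroup.coe_inv]
        group
      rw [hM]
      set m1 := g1⁻¹ * ((((γ k)⁻¹ : Γ) : SL(2, ℝ)) * h) with hm1
      have h11 : (aM k * m1).1 1 1 = Real.exp (-((k : ℝ) / 2)) * m1.1 1 1 := by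
        rw [PMS_mul, PMS_a10, PMS_a11]; ring
      have h01 : (aM k * m1).1 0 1 = Real.exp ((k : ℝ) / 2) * m1.1 0 1 := by
        rw [PMS_mul, PMS_a00, PMS_a01]; ring
      rw [h11, h01, abs_mul, abs_mul, abs_of_pos (Real.exp_pos _), abs_of_pos (Real.exp_pos _)]
      have hexp : Real.exp ((k : ℝ) / 2) * Real.exp (-(k : ℝ)) = Real.exp (-((k : ℝ) / 2)) := by
        rw [← Real.exp_add]; congr 1; ring
      have h3 : Real.exp ((k : ℝ) / 2) * |m1.1 0 1| * (Real.exp (-(k : ℝ)) / ε) = Real.exp (-((k : ℝ) / 2)) * (|m1.1 0 1| / ε) := by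
        rw [← hexp]; ring
      rw [h3]
      refine mul_le_mul_of_nonneg_left ?_ (Real.exp_pos _).le
      rw [le_div_iff₀ hε0]
      exact hstar
    have hexp0 : Tendsto (fun k : ℕ => Real.exp (-(φ k : ℝ)) / ε) atTop (𝓝 0) := by
      have h1 : Tendsto (fun k : ℕ => Real.exp (-(k : ℝ)) / ε) atTop (𝓝 0) := by
        have h2 : Tendsto (fun k : ℕ => Real.exp (-(k : ℝ))) atTop (𝓝 0) :=
          Real.tendsto_exp_neg_atTop_nhds_zero.comp tendsto_natCast_atTop_atTop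
        have h3 := h2.div_const ε
        rw [zero_div] at h3
        exact h3
      exact h1.comp hφ.tendsto_atTop
    have hprod := (hent 0 1).abs.mul hexp0
    rw [mul_zero] at hprod
    have h11 := (hent 1 1).abs
    have hle : |(gi⁻¹ * h).1 1 1| ≤ 0 := le_of_tendsto_of_tendsto' h11 hprod fun k => hineq (φ k)
    exact abs_eq_zero.mp (le_antisymm hle (abs_nonneg _))
  obtain ⟨x0, hx0⟩ := hne
  obtain ⟨h0, rfl⟩ := hsurj x0
  obtain ⟨δ, hδ⟩ := hN Γ h0 hΓ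
  apply hδ
  have hm := hD h0 hx0
  have hm' := hD ((δ : SL(2, ℝ)) * h0) (by rw [hinv]; exact hx0)
  have hE : h0⁻¹ * (δ : SL(2, ℝ)) * h0 = (gi⁻¹ * h0)⁻¹ * (gi⁻¹ * ((δ : SL(2, ℝ)) * h0)) := by group
  rw [hE]
  set m := gi⁻¹ * h0 with hmd
  rw [PMS_mul, hm', mul_zero, add_zero]
  have h1 : (m⁻¹).1 0 0 = m.1 1 1 := by
    rw [Matrix.SpecialLinearGroup.SL2_inv_expl]
    rfl
  rw [h1, hm, zero_mul]

end Pool.Agent.FS
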