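import Pool.Agent.helper52.FS.SpecP

/-!
# MP_07c750, project FS, row UNQ (from the gap theorem to the exponential sum)
-/

open MeasureTheory Set

set_option autoImplicit false

namespace Pool.Agent.FS

lemma UNQ_norm_ee (s : ℝ) : ‖ee s‖ = 1 := by
  unfold ee
  exact Complex.norm_exp_ofReal_mul_I s

lemma UNQ_ee_add (s t : ℝ) : ee (s + t) = ee s * ee t := by
  unfold ee
  rw [← Complex.exp_add]
  congr 1
  push_cast
  ring

lemma UNQ_qq (S : Finset ℤ) (b : ℤ → ℂ) (lam : ℤ → ℝ) (η t : ℝ) :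
    qq S b (fun k => lam k - η) t = ee (-(η * t)) * qq S b lam t := by
  unfold qq
  have h : ∑ k ∈ S, b k * ee ((lam k - η) * t) = ee (-(η * t)) * ∑ k ∈ S, b k * ee (lam k * t) := by
    rw [Finset.mul_sum]
    refine Finset.sum_congr rfl fun k _ => ?_
    have h1 : (lam k - η) * t = -(η * t) + lam k * t := by ring
    rw [h1, UNQ_ee_add]
    ring
  rw [h]
  ring

lemma UNQ_norm_qq (S : Finset ℤ) (b : ℤ → ℂ) (lam : ℤ → ℝ) (η t : ℝ) :
    ‖qq S b (fun k => lam k - η) t‖ = ‖qq S b lam t‖ := by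
  rw [UNQ_qq, norm_mul, UNQ_norm_ee, one_mul]

/-- the bound on the real axis, by continuity -/
lemma UNQ_real (C : ℂ → ℂ) (c A L : ℝ) (hc : 0 ≤ c) (hA : 0 ≤ A) (hL : 0 < L)
    (h : ∀ z : ℂ, z.im ≠ 0 → |z.im| ≤ L → ‖C z‖ ≤ A * Real.exp (-(c * |z.im|))) (z : ℂ) (hz : z.im = 0)
    (hd : ContinuousAt C z) : ‖C z‖ ≤ A := by
  have h1 : Filter.Tendsto (fun e : ℝ => z + (e : ℂ) * Complex.I) (nhdsWithin 0 (Ioi 0)) (nhds z) := by
    have h2 : Continuous (fun e : ℝ => z + (e : ℂ) * Complex.I) := by fun_prop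
    have h3 := h2.tendsto 0
    simp only [Complex.ofReal_zero, zero_mul, add_zero] at h3
    exact h3.mono_left nhdsWithin_le_nhds
  have h4 : Filter.Tendsto (fun e : ℝ => ‖C (z + (e : ℂ) * Complex.I)‖) (nhdsWithin 0 (Ioi 0)) (nhds ‖C z‖) :=
    (hd.tendsto.comp h1).norm
  refine le_of_tendsto h4 ?_
  have h5 : ∀ᶠ e : ℝ in nhdsWithin 0 (Ioi 0), e ∈ Ioo (0 : ℝ) L := Ioo_mem_nhdsGT hL
  filter_upwards [h5] with e he
  have him : (z + (e : ℂ) * Complex.I).im = e := by
    simp [hz]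
  have h6 := h (z + (e : ℂ) * Complex.I) (by rw [him]; exact he.1.ne') (by rw [him, abs_of_pos he.1]; exact he.2.le)
  refine h6.trans ?_
  have h7 : Real.exp (-(c * |(z + (e : ℂ) * Complex.I).im|)) ≤ 1 := by
    rw [Real.exp_le_one_iff]
    have := mul_nonneg hc (abs_nonneg (z + (e : ℂ) * Complex.I).im)
    linarith
  calc A * Real.exp (-(c * |(z + (e : ℂ) * Complex.I).im|)) ≤ A * 1 := mul_le_mul_of_nonneg_left h7 hA
    _ = A := mul_one A

theorem UNQ_proof (hC : CAU_stmt) (hH : HMB_stmt) : UNQ_stmt := by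
  intro c g η i1 i2 S b lam hc hc1 hg hg1 hi hgap
  obtain ⟨-, hdiff, hbd, hI⟩ := hC S b (fun k => lam k - η)
  set C : ℂ → ℂ := CC S b (fun k => lam k - η) with hCdef
  set L : ℝ := 2 ^ (i2 + 3) with hL
  have hL0 : 0 < L := by rw [hL]; positivity
  set A : ℝ := (∫ t, ‖qq S b lam t‖) + Real.exp (c * L) * ∫ t in Icc (-c) c, ‖qq S b lam t‖ with hA
  have hA0 : 0 ≤ A := by
    have h1 : 0 ≤ ∫ t, ‖qq S b lam t‖ := integral_nonneg fun t => norm_nonneg _
    have h2 : 0 ≤ ∫ t in Icc (-c) c, ‖qq S b lam t‖ := integral_nonneg fun t => norm_nonneg _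
    rw [hA]
    positivity
  have hbd' : ∀ z : ℂ, z.im ≠ 0 → |z.im| ≤ L → ‖C z‖ ≤ A * Real.exp (-(c * |z.im|)) := by
    intro z hz hzL
    have h1 := hbd c L z hc.le hz hzL
    have h2 : (∫ t, ‖qq S b (fun k => lam k - η) t‖) = ∫ t, ‖qq S b lam t‖ := by
      congr 1
      funext t
      exact UNQ_norm_qq S b lam η t
    have h3 : (∫ t in Icc (-c) c, ‖qq S b (fun k => lam k - η) t‖) = ∫ t in Icc (-c) c, ‖qq S b lam t‖ := by
      congr 1
      funext t
      exact UNQ_norm_qq S b lam η t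
    rw [h2, h3] at h1
    exact h1
  classical
  choose! y hy1 hy2 hy3 using hgap
  have hfin := hH c g A i1 i2 C y hc hc1 hg hg1 hA0 hi
    (fun z hz => hdiff z fun k _ => Or.inl hz.ne')
    (fun z hz hzL => by
      have h1 := hbd' z hz.ne' (by rw [abs_of_pos hz]; exact hzL)
      rw [abs_of_pos hz] at h1
      exact h1)
    (fun i hi1 hi2 => by
      refine ⟨hy1 i hi1 hi2, hy2 i hi1 hi2, fun z hz => ?_⟩
      have hre : |z.re - y i| ≤ g * 2 ^ i := by
        have h1 := Complex.abs_re_le_norm (z - (y i : ℂ))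
        rw [Complex.sub_re, Complex.ofReal_re] at h1
        exact h1.trans hz
      have him : |z.im| ≤ g * 2 ^ i := by
        have h1 := Complex.abs_im_le_norm (z - (y i : ℂ))
        rw [Complex.sub_im, Complex.ofReal_im, sub_zero] at h1
        exact h1.trans hz
      have hd : DifferentiableAt ℂ C z := by
        refine hdiff z fun k hk => Or.inr ?_
        have h1 := hy3 i hi1 hi2 k hk
        have h2 : |lam k - η - y i| ≤ |z.re - (lam k - η)| + |z.re - y i| := by
          have h3 : lam k - η - y i = (z.re - y i) - (z.re - (lam k - η)) := by ring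
          rw [h3]
          have h4 := abs_sub (z.re - y i) (z.re - (lam k - η))
          linarith
        linarith
      refine ⟨hd, ?_⟩
      have hmL : |z.im| ≤ L := by
        refine him.trans ?_
        have h1 : (2 : ℝ) ^ i ≤ 2 ^ (i2 + 3) := pow_le_pow_right₀ (by norm_num) (by omega)
        have h2 : (0 : ℝ) < 2 ^ i := by positivity
        rw [hL]
        nlinarith
      by_cases hz0 : z.im = 0
      · have h1 := UNQ_real C c A L hc.le hA0 hL0 hbd' z hz0 hd.continuousAt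
        rw [hz0, abs_zero, mul_zero, neg_zero, Real.exp_zero, mul_one]
        exact h1
      · exact hbd' z hz0 hmL)
  have hint : (∫ t in Ioi (0 : ℝ), (Real.exp (-t) : ℂ) * ee (η * t) * qq S b lam (-t)) =
      ∫ t in Ioi (0 : ℝ), (Real.exp (-t) : ℂ) * qq S b (fun k => lam k - η) (-t) := by
    congr 1
    funext t
    rw [UNQ_qq]
    have h1 : -(η * -t) = η * t := by ring
    rw [h1]
    ring
  rw [hint]
  have hnorm : ‖C Complex.I‖ = ‖∫ t in Ioi (0 : ℝ), (Real.exp (-t) : ℂ) * qq S b (fun k => lam k - η) (-t)‖ := by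
    rw [hI, norm_mul, Complex.norm_I, one_mul]
  rw [← hnorm, mul_comm (Real.exp _)]
  exact hfin

end Pool.Agent.FS
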